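import Mathlib
import Pool.Agent.Helper50.Rec.Defs
import Pool.Agent.Helper50.Rec.Basic
import Pool.Agent.Helper38.Rec.SkAnti

/-!
# REC-7: linear families are controlled by the box averages
-/

open MeasureTheory Polynomial Finset
open scoped BigOperators ComplexConjugate

namespace Pool.Agent.Helper50.Rec

variable {X : Type} [MeasurableSpace X]

namespace Lin

/-- monotonicity of the box averages (this is REC-2a, proved elsewhere) -/
def SkAnti (S : Sys X) : Prop := ∀ (k : ℕ) (f : X → ℂ), B1 f → ∀ r s : ℕ, r ≤ s →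
    S.Sk k (2 ^ s) f ≤ S.Sk k (2 ^ r) f

lemma Sk_nonneg (S : Sys X) (k M : ℕ) (f : X → ℂ) : 0 ≤ S.Sk k M f := by
  induction k generalizing f with
  | zero => simp only [Sys.Sk]; positivity
  | succ k ih =>
    simp only [Sys.Sk]
    exact mul_nonneg (by positivity)
      (Finset.sum_nonneg fun a _ => Finset.sum_nonneg fun b _ => ih _)

lemma dd_sh (S : Sys X) (a b n : ℤ) (f : X → ℂ) :
    S.dd a b (S.sh n f) = S.sh n (S.dd a b f) := by
  funext x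
  simp only [Sys.dd, Sys.sh]
  rw [← S.τ_add, ← S.τ_add, ← S.τ_add, ← S.τ_add, add_comm n a, add_comm n b]

lemma dd_add (S : Sys X) (a b n : ℤ) (f : X → ℂ) :
    S.dd (a + n) (b + n) f = S.sh n (S.dd a b f) := by
  funext x
  simp only [Sys.dd, Sys.sh]
  rw [← S.τ_add, ← S.τ_add]

lemma Sk_sh (S : Sys X) (k M : ℕ) (n : ℤ) (f : X → ℂ) : S.Sk k M (S.sh n f) = S.Sk k M f := by
  induction k generalizing f with
  | zero => simp only [Sys.Sk, S.int_sh]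
  | succ k ih =>
    simp only [Sys.Sk, dd_sh, ih]

lemma Sk_dd_add (S : Sys X) (k M : ℕ) (a b n : ℤ) (f : X → ℂ) :
    S.Sk k M (S.dd (a + n) (b + n) f) = S.Sk k M (S.dd a b f) := by
  rw [dd_add, Sk_sh]

/-- dilating the shifts -/
lemma scale_sum (Φ : ℤ → ℤ → ℝ) (h0 : ∀ a b, 0 ≤ Φ a b)
    (hinv : ∀ a b n, Φ (a + n) (b + n) = Φ a b) (lam : ℤ) (hlam : lam ≠ 0) (K M : ℕ)
    (hM : lam.natAbs * K ≤ M) :
    ∑ a ∈ range K, ∑ b ∈ range K, Φ (lam * (a : ℤ)) (lam * (b : ℤ)) ≤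
      ∑ a ∈ range M, ∑ b ∈ range M, Φ (a : ℤ) (b : ℤ) := by
  have hl : 0 < lam.natAbs := Int.natAbs_pos.mpr hlam
  -- the positive case
  have key : ∑ a ∈ range K, ∑ b ∈ range K, Φ (((lam.natAbs * a : ℕ) : ℤ))
      (((lam.natAbs * b : ℕ) : ℤ)) ≤ ∑ a ∈ range M, ∑ b ∈ range M, Φ (a : ℤ) (b : ℤ) := by
    rw [← Finset.sum_product', ← Finset.sum_product']
    have hinj : Set.InjOn (fun p : ℕ × ℕ => (lam.natAbs * p.1, lam.natAbs * p.2))
        ((range K ×ˢ range K : Finset (ℕ × ℕ)) : Set (ℕ × ℕ)) := by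
      rintro ⟨a, b⟩ _ ⟨a', b'⟩ _ h
      simp only [Prod.mk.injEq, mul_eq_mul_left_iff, hl.ne', or_false] at h
      exact Prod.ext h.1 h.2
    rw [← Finset.sum_image (f := fun p : ℕ × ℕ => Φ (p.1 : ℤ) (p.2 : ℤ)) hinj]
    refine Finset.sum_le_sum_of_subset_of_nonneg ?_ (fun p _ _ => h0 _ _)
    intro p hp
    simp only [Finset.mem_image, Finset.mem_product, Finset.mem_range, Prod.exists] at hp ⊢
    obtain ⟨a, b, ⟨ha, hb⟩, rfl⟩ := hp
    constructor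
    · exact lt_of_lt_of_le (Nat.mul_lt_mul_of_pos_left ha hl) hM
    · exact lt_of_lt_of_le (Nat.mul_lt_mul_of_pos_left hb hl) hM
  rcases lt_or_gt_of_ne hlam with hneg | hpos
  · have e : ∀ a b : ℕ, Φ (lam * (a : ℤ)) (lam * (b : ℤ)) =
        Φ (((lam.natAbs * b : ℕ) : ℤ)) (((lam.natAbs * a : ℕ) : ℤ)) := by
      intro a b
      rw [← hinv (lam * (a : ℤ)) (lam * (b : ℤ)) (((lam.natAbs * (a + b) : ℕ) : ℤ))]
      have : ((lam.natAbs : ℕ) : ℤ) = -lam := by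
        rw [Int.natCast_natAbs, abs_of_neg hneg]
      congr 1 <;> push_cast [this] <;> ring
    simp only [e]
    rw [Finset.sum_comm]
    exact key
  · have e : ∀ a : ℕ, lam * (a : ℤ) = ((lam.natAbs * a : ℕ) : ℤ) := by
      intro a
      have : ((lam.natAbs : ℕ) : ℤ) = lam := by
        rw [Int.natCast_natAbs, abs_of_pos hpos]
      push_cast [this]; ring
    simp only [e]
    exact key

/-- comparison of dilated box averages with box averages -/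
lemma scale_Sk (S : Sys X) (hanti : SkAnti S) (k r s : ℕ) (lam : ℤ) (hlam : lam ≠ 0) (hs : lam.natAbs ≤ 2 ^ s)
    (f : X → ℂ) (hf : B1 f) :
    (((2 ^ r : ℕ) : ℝ) ^ 2)⁻¹ * ∑ a ∈ range (2 ^ r), ∑ b ∈ range (2 ^ r),
      S.Sk k (2 ^ (r + s)) (S.dd (lam * (a : ℤ)) (lam * (b : ℤ)) f) ≤
        (2 ^ s) ^ 2 * S.Sk (k + 1) (2 ^ r) f := by
  have h1 := scale_sum (fun a b => S.Sk k (2 ^ (r + s)) (S.dd a b f))
    (fun a b => Sk_nonneg S _ _ _) (fun a b n => Sk_dd_add S _ _ _ _ _ _) lam hlam (2 ^ r)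
    (2 ^ (r + s)) (by rw [pow_add, mul_comm]; gcongr)
  have h2 := hanti (k + 1) f hf r (r + s) (by omega)
  have h3 : S.Sk (k + 1) (2 ^ (r + s)) f = ((((2 ^ (r + s) : ℕ) : ℝ)) ^ 2)⁻¹ *
    ∑ a ∈ range (2 ^ (r + s)), ∑ b ∈ range (2 ^ (r + s)),
      S.Sk k (2 ^ (r + s)) (S.dd (a : ℤ) (b : ℤ) f) := rfl
  calc _ ≤ (((2 ^ r : ℕ) : ℝ) ^ 2)⁻¹ * ∑ a ∈ range (2 ^ (r + s)), ∑ b ∈ range (2 ^ (r + s)),
        S.Sk k (2 ^ (r + s)) (S.dd (a : ℤ) (b : ℤ) f) := by gcongr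
    _ = (2 ^ s) ^ 2 * S.Sk (k + 1) (2 ^ (r + s)) f := by
      rw [h3]
      generalize ∑ a ∈ range (2 ^ (r + s)), ∑ b ∈ range (2 ^ (r + s)),
        S.Sk k (2 ^ (r + s)) (S.dd (a : ℤ) (b : ℤ) f) = Z
      have e : ((2 ^ (r + s) : ℕ) : ℝ) = 2 ^ r * 2 ^ s := by push_cast; rw [pow_add]
      rw [e]; push_cast; field_simp
    _ ≤ _ := by gcongr

/-- the integrals in the van der Corput inequality for a linear family -/
lemma int_linear (S : Sys X) {ι : Type} [Fintype ι] (lam c : ι → ℤ) (F : ι → X → ℂ) (b : ι)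
    (a a' h : ℕ) :
    S.int (fun x => (∏ i, S.sh (lam i * ((h + a : ℕ) : ℤ) + c i) (F i) x) *
      conj (∏ i, S.sh (lam i * ((h + a' : ℕ) : ℤ) + c i) (F i) x)) =
    S.int (fun x => ∏ i, S.sh ((lam i - lam b) * (h : ℤ) + (c i - c b))
      (S.dd (lam i * (a : ℤ)) (lam i * (a' : ℤ)) (F i)) x) := by
  rw [← S.int_sh (-(lam b * (h : ℤ) + c b))]
  congr 1
  funext x
  simp only [Sys.sh, Sys.dd]
  rw [map_prod, ← Finset.prod_mul_distrib]
  refine Finset.prod_congr rfl fun i _ => ?_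
  rw [← S.τ_add, ← S.τ_add, ← S.τ_add, ← S.τ_add]
  congr 3
  · push_cast; ring_nf
  · push_cast; ring_nf

/-- the quantitative form -/
theorem claim (S : Sys X) (hanti : SkAnti S) (n : ℕ) : ∀ {ι : Type} [Fintype ι], Fintype.card ι = n + 1 →
    ∀ (lam : ι → ℤ), (∀ i, lam i ≠ 0) → Function.Injective lam → ∀ (i0 : ι) (ε : ℝ), 0 < ε →
    ∃ δ : ℝ, 0 < δ ∧ ∀ f : X → ℂ, B1 f → ∀ r : ℕ, S.Sk (n + 1) (2 ^ r) f < δ →
    ∃ H₀ : ℕ, ∀ H ≥ H₀, ∀ c : ι → ℤ, ∀ F : ι → X → ℂ, (∀ i, B1 (F i)) → F i0 = f →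
      S.sq (avg H (fun h x => ∏ i, S.sh (lam i * (h : ℤ) + c i) (F i) x)) ≤ ε := by
  induction n with
  | zero =>
    intro ι _ hcard lam hne hinj i0 ε hε
    obtain ⟨s, hs⟩ : ∃ s : ℕ, (lam i0).natAbs ≤ 2 ^ s := ⟨_, Nat.lt_two_pow_self.le⟩
    refine ⟨(ε / 2) ^ 2 / (2 ^ s) ^ 2, by positivity, fun f hf r hr => ?_⟩
    obtain ⟨H₀, hH₀⟩ := exists_nat_gt (2 * 2 ^ r / (ε / 2))
    refine ⟨max H₀ (2 ^ r), fun H hH c F hF hF0 => ?_⟩
    have hHr : 2 ^ r ≤ H := le_trans (le_max_right _ _) hH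
    have hHp : (0 : ℝ) < H := by
      have : 0 < H := lt_of_lt_of_le (by positivity) hHr
      exact_mod_cast this
    have hv : ∀ h : ℕ, B1 (fun x => ∏ i, S.sh (lam i * (h : ℤ) + c i) (F i) x) :=
      fun h => B1.prod _ fun i => (hF i).sh S _
    have h1 := vdc S (fun h x => ∏ i, S.sh (lam i * (h : ℤ) + c i) (F i) x) hv H (2 ^ r)
      Nat.one_le_two_pow hHr
    have huniq : ∀ i, i = i0 := by
      intro i
      have : Subsingleton ι := Fintype.card_le_one_iff_subsingleton.mp (by omega)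
      exact Subsingleton.elim _ _
    have hun : (univ : Finset ι) = {i0} := by
      ext i; simp [huniq i]
    -- evaluate the inner averages
    have h2 : ∀ a a' : ℕ, ‖(H : ℂ)⁻¹ * ∑ h ∈ range H,
        S.int (fun x => (∏ i, S.sh (lam i * ((h + a : ℕ) : ℤ) + c i) (F i) x) *
          conj (∏ i, S.sh (lam i * ((h + a' : ℕ) : ℤ) + c i) (F i) x))‖ =
        ‖S.int (S.dd (lam i0 * (a : ℤ)) (lam i0 * (a' : ℤ)) f)‖ := by
      intro a a'
      have : ∀ h ∈ range H,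
          S.int (fun x => (∏ i, S.sh (lam i * ((h + a : ℕ) : ℤ) + c i) (F i) x) *
          conj (∏ i, S.sh (lam i * ((h + a' : ℕ) : ℤ) + c i) (F i) x)) =
          S.int (S.dd (lam i0 * (a : ℤ)) (lam i0 * (a' : ℤ)) f) := by
        intro h _
        rw [int_linear S lam c F i0 a a' h]
        congr 1
        funext x
        rw [hun, Finset.prod_singleton, hF0]
        simp [Sys.sh, S.τ_zero]
      rw [Finset.sum_congr rfl this, Finset.sum_const, card_range, nsmul_eq_mul, ← mul_assoc,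
        inv_mul_cancel₀, one_mul]
      exact_mod_cast hHp.ne'
    have h3 : ((((2 ^ r : ℕ) : ℝ)) ^ 2)⁻¹ * ∑ a ∈ range (2 ^ r), ∑ a' ∈ range (2 ^ r),
        ‖S.int (S.dd (lam i0 * (a : ℤ)) (lam i0 * (a' : ℤ)) f)‖ ≤ ε / 2 := by
      have h4 := scale_Sk S hanti 0 r s (lam i0) (hne i0) hs f hf
      set Y := ((((2 ^ r : ℕ) : ℝ)) ^ 2)⁻¹ * ∑ a ∈ range (2 ^ r), ∑ a' ∈ range (2 ^ r),
        ‖S.int (S.dd (lam i0 * (a : ℤ)) (lam i0 * (a' : ℤ)) f)‖ with hY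
      have h5 : Y ^ 2 ≤ ((((2 ^ r : ℕ) : ℝ)) ^ 2)⁻¹ * ∑ a ∈ range (2 ^ r),
          ∑ a' ∈ range (2 ^ r), ‖S.int (S.dd (lam i0 * (a : ℤ)) (lam i0 * (a' : ℤ)) f)‖ ^ 2 := by
        have h6 := sq_sum_le_card_mul_sum_sq (s := range (2 ^ r) ×ˢ range (2 ^ r))
          (f := fun p : ℕ × ℕ => ‖S.int (S.dd (lam i0 * (p.1 : ℤ)) (lam i0 * (p.2 : ℤ)) f)‖)
        rw [Finset.sum_product, Finset.sum_product, card_product, card_range] at h6
        have h7 : (0 : ℝ) < ((2 ^ r : ℕ) : ℝ) := by positivity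
        rw [hY, mul_pow]
        calc _ ≤ (((((2 ^ r : ℕ) : ℝ)) ^ 2)⁻¹) ^ 2 * (((2 ^ r * 2 ^ r : ℕ) : ℝ) *
              ∑ a ∈ range (2 ^ r), ∑ a' ∈ range (2 ^ r),
                ‖S.int (S.dd (lam i0 * (a : ℤ)) (lam i0 * (a' : ℤ)) f)‖ ^ 2) := by gcongr
          _ = _ := by
            generalize ∑ a ∈ range (2 ^ r), ∑ a' ∈ range (2 ^ r),
                ‖S.int (S.dd (lam i0 * (a : ℤ)) (lam i0 * (a' : ℤ)) f)‖ ^ 2 = Z
            push_cast; field_simp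
      have h6 : Y ^ 2 ≤ (ε / 2) ^ 2 := by
        refine h5.trans (h4.trans ?_)
        calc (2 ^ s) ^ 2 * S.Sk (0 + 1) (2 ^ r) f ≤
            (2 ^ s) ^ 2 * ((ε / 2) ^ 2 / (2 ^ s) ^ 2) := by
              gcongr
          _ = _ := by field_simp
      exact le_of_sq_le_sq h6 (by positivity)
    have h8 : 2 * ((2 ^ r : ℕ) : ℝ) / H ≤ ε / 2 := by
      rw [div_le_iff₀ hHp]
      have h9 : (2 * 2 ^ r / (ε / 2)) < (H : ℝ) :=
        lt_of_lt_of_le hH₀ (by exact_mod_cast (le_max_left H₀ (2 ^ r)).trans hH)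
      rw [div_lt_iff₀ (by positivity)] at h9
      push_cast; linarith
    have h10 : S.sq (avg H (fun h x => ∏ i, S.sh (lam i * (h : ℤ) + c i) (F i) x)) ≤
        ((((2 ^ r : ℕ) : ℝ)) ^ 2)⁻¹ * ∑ a ∈ range (2 ^ r), ∑ a' ∈ range (2 ^ r),
        ‖S.int (S.dd (lam i0 * (a : ℤ)) (lam i0 * (a' : ℤ)) f)‖ +
          2 * ((2 ^ r : ℕ) : ℝ) / H := by
      refine h1.trans_eq ?_
      congr 2
      exact Finset.sum_congr rfl fun a _ => Finset.sum_congr rfl fun a' _ => h2 a a'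
    linarith
  | succ n ih =>
    intro ι _ hcard lam hne hinj i0 ε hε
    classical
    obtain ⟨s, hs⟩ : ∃ s : ℕ, (lam i0).natAbs ≤ 2 ^ s := ⟨_, Nat.lt_two_pow_self.le⟩
    -- the pivot
    obtain ⟨b, hb⟩ : ∃ b : ι, b ≠ i0 := by
      have : 1 < Fintype.card ι := by omega
      obtain ⟨b, hb⟩ := Fintype.exists_ne_of_one_lt_card this i0
      exact ⟨b, hb⟩
    have hcard' : Fintype.card {i : ι // i ≠ b} = n + 1 := by
      rw [Fintype.card_subtype_compl, Fintype.card_subtype_eq]; omega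
    obtain ⟨δ', hδ', hcl⟩ := ih (ι := {i : ι // i ≠ b}) hcard' (fun i => lam i.1 - lam b)
      (fun i => sub_ne_zero.mpr (hinj.ne i.2))
      (fun i j hij => by
        have : lam i.1 = lam j.1 := by simpa using hij
        exact Subtype.ext (hinj this))
      ⟨i0, hb.symm⟩ ((ε / 3) ^ 2) (by positivity)
    refine ⟨δ' * (ε / 3) / (2 ^ s) ^ 2, by positivity, fun f hf r hr => ?_⟩
    -- good pairs
    have hgood : ∀ a a' : ℕ, ∃ H₁ : ℕ,
        S.Sk (n + 1) (2 ^ (r + s)) (S.dd (lam i0 * (a : ℤ)) (lam i0 * (a' : ℤ)) f) < δ' →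
        ∀ H ≥ H₁, ∀ c : {i : ι // i ≠ b} → ℤ, ∀ F : {i : ι // i ≠ b} → X → ℂ,
          (∀ i, B1 (F i)) →
          F ⟨i0, hb.symm⟩ = S.dd (lam i0 * (a : ℤ)) (lam i0 * (a' : ℤ)) f →
          S.sq (avg H (fun h x => ∏ i : {i : ι // i ≠ b},
            S.sh ((lam i.1 - lam b) * (h : ℤ) + c i) (F i) x)) ≤ (ε / 3) ^ 2 := by
      intro a a'
      by_cases hlt : S.Sk (n + 1) (2 ^ (r + s))
          (S.dd (lam i0 * (a : ℤ)) (lam i0 * (a' : ℤ)) f) < δ'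
      · obtain ⟨H₁, hH₁⟩ := hcl _ (hf.dd S _ _) (r + s) hlt
        exact ⟨H₁, fun _ => hH₁⟩
      · exact ⟨0, fun h => absurd h hlt⟩
    choose H₁ hH₁ using hgood
    obtain ⟨H₀, hH₀⟩ := exists_nat_gt (2 * 2 ^ r / (ε / 3))
    refine ⟨max (max H₀ (2 ^ r)) (∑ a ∈ range (2 ^ r), ∑ a' ∈ range (2 ^ r), H₁ a a'),
      fun H hH c F hF hF0 => ?_⟩
    have hHr : 2 ^ r ≤ H := le_trans (le_trans (le_max_right _ _) (le_max_left _ _)) hH
    have hHp : (0 : ℝ) < H := by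
      have : 0 < H := lt_of_lt_of_le (by positivity) hHr
      exact_mod_cast this
    have hHH : ∀ a < 2 ^ r, ∀ a' < 2 ^ r, H₁ a a' ≤ H := by
      intro a ha a' ha'
      refine le_trans ?_ (le_trans (le_max_right _ _) hH)
      have e1 : H₁ a a' ≤ ∑ a' ∈ range (2 ^ r), H₁ a a' :=
        Finset.single_le_sum (f := fun a' => H₁ a a') (fun _ _ => Nat.zero_le _)
          (Finset.mem_range.mpr ha')
      have e2 : ∑ a' ∈ range (2 ^ r), H₁ a a' ≤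
          ∑ a ∈ range (2 ^ r), ∑ a' ∈ range (2 ^ r), H₁ a a' :=
        Finset.single_le_sum (f := fun a => ∑ a' ∈ range (2 ^ r), H₁ a a')
          (fun _ _ => Nat.zero_le _) (Finset.mem_range.mpr ha)
      exact e1.trans e2
    have hv : ∀ h : ℕ, B1 (fun x => ∏ i, S.sh (lam i * (h : ℤ) + c i) (F i) x) :=
      fun h => B1.prod _ fun i => (hF i).sh S _
    have h1 := vdc S (fun h x => ∏ i, S.sh (lam i * (h : ℤ) + c i) (F i) x) hv H (2 ^ r)
      Nat.one_le_two_pow hHr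
    -- each inner average
    have h2 : ∀ a < 2 ^ r, ∀ a' < 2 ^ r, ‖(H : ℂ)⁻¹ * ∑ h ∈ range H,
        S.int (fun x => (∏ i, S.sh (lam i * ((h + a : ℕ) : ℤ) + c i) (F i) x) *
          conj (∏ i, S.sh (lam i * ((h + a' : ℕ) : ℤ) + c i) (F i) x))‖ ≤
        ε / 3 + S.Sk (n + 1) (2 ^ (r + s))
          (S.dd (lam i0 * (a : ℤ)) (lam i0 * (a' : ℤ)) f) / δ' := by
      intro a ha a' ha'
      have hG : ∀ i, B1 (S.dd (lam i * (a : ℤ)) (lam i * (a' : ℤ)) (F i)) :=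
        fun i => (hF i).dd S _ _
      have hw : ∀ h : ℕ, B1 (fun x => ∏ i : {i : ι // i ≠ b},
          S.sh ((lam i.1 - lam b) * (h : ℤ) + (c i.1 - c b))
            (S.dd (lam i.1 * (a : ℤ)) (lam i.1 * (a' : ℤ)) (F i.1)) x) :=
        fun h => B1.prod _ fun i => (hG i.1).sh S _
      have e0 : (H : ℂ)⁻¹ * ∑ h ∈ range H,
          S.int (fun x => (∏ i, S.sh (lam i * ((h + a : ℕ) : ℤ) + c i) (F i) x) *
            conj (∏ i, S.sh (lam i * ((h + a' : ℕ) : ℤ) + c i) (F i) x)) =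
          S.int (fun x => avg H (fun h x => ∏ i : {i : ι // i ≠ b},
            S.sh ((lam i.1 - lam b) * (h : ℤ) + (c i.1 - c b))
              (S.dd (lam i.1 * (a : ℤ)) (lam i.1 * (a' : ℤ)) (F i.1)) x) x *
              S.dd (lam b * (a : ℤ)) (lam b * (a' : ℤ)) (F b) x) := by
        rw [S.int_avg_mul hw H (hG b)]
        congr 1
        refine Finset.sum_congr rfl fun h _ => ?_
        rw [int_linear S lam c F b a a' h]
        congr 1
        funext x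
        rw [Fintype.prod_eq_mul_prod_subtype_ne _ b, mul_comm]
        congr 1
        simp [Sys.sh, S.τ_zero]
      rw [e0]
      have e1 := S.cs_one (B1.avg hw H) (hG b)
      have hW := (B1.avg hw H).mul (hG b)
      by_cases hlt : S.Sk (n + 1) (2 ^ (r + s))
          (S.dd (lam i0 * (a : ℤ)) (lam i0 * (a' : ℤ)) f) < δ'
      · have e2 := hH₁ a a' hlt H (hHH a ha a' ha') (fun i => c i.1 - c b)
          (fun i => S.dd (lam i.1 * (a : ℤ)) (lam i.1 * (a' : ℤ)) (F i.1)) (fun i => hG i.1)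
          (by simp only; rw [hF0])
        have e3 := le_of_sq_le_sq (e1.trans e2) (by positivity)
        have e4 : 0 ≤ S.Sk (n + 1) (2 ^ (r + s))
          (S.dd (lam i0 * (a : ℤ)) (lam i0 * (a' : ℤ)) f) / δ' :=
          div_nonneg (Sk_nonneg _ _ _ _) hδ'.le
        linarith
      · push Not at hlt
        have e2 := S.norm_int_le hW
        have e4 : 1 ≤ S.Sk (n + 1) (2 ^ (r + s))
          (S.dd (lam i0 * (a : ℤ)) (lam i0 * (a' : ℤ)) f) / δ' := by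
          rw [le_div_iff₀ hδ']; linarith
        linarith
    have h3 : ((((2 ^ r : ℕ) : ℝ)) ^ 2)⁻¹ * ∑ a ∈ range (2 ^ r), ∑ a' ∈ range (2 ^ r),
        (ε / 3 + S.Sk (n + 1) (2 ^ (r + s))
          (S.dd (lam i0 * (a : ℤ)) (lam i0 * (a' : ℤ)) f) / δ') ≤ ε / 3 + ε / 3 := by
      have h4 := scale_Sk S hanti (n + 1) r s (lam i0) (hne i0) hs f hf
      have h5 : ((((2 ^ r : ℕ) : ℝ)) ^ 2)⁻¹ * ∑ a ∈ range (2 ^ r), ∑ a' ∈ range (2 ^ r),
        (ε / 3 + S.Sk (n + 1) (2 ^ (r + s))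
          (S.dd (lam i0 * (a : ℤ)) (lam i0 * (a' : ℤ)) f) / δ') =
          ε / 3 + (((((2 ^ r : ℕ) : ℝ)) ^ 2)⁻¹ * ∑ a ∈ range (2 ^ r), ∑ a' ∈ range (2 ^ r),
            S.Sk (n + 1) (2 ^ (r + s))
              (S.dd (lam i0 * (a : ℤ)) (lam i0 * (a' : ℤ)) f)) / δ' := by
        simp only [Finset.sum_add_distrib, Finset.sum_const, card_range, ← Finset.sum_div,
          nsmul_eq_mul]
        generalize ∑ a ∈ range (2 ^ r), ∑ a' ∈ range (2 ^ r),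
            S.Sk (n + 1) (2 ^ (r + s))
              (S.dd (lam i0 * (a : ℤ)) (lam i0 * (a' : ℤ)) f) = Z
        push_cast; field_simp
      rw [h5]
      have h6 : (((((2 ^ r : ℕ) : ℝ)) ^ 2)⁻¹ * ∑ a ∈ range (2 ^ r), ∑ a' ∈ range (2 ^ r),
            S.Sk (n + 1) (2 ^ (r + s))
              (S.dd (lam i0 * (a : ℤ)) (lam i0 * (a' : ℤ)) f)) / δ' ≤ ε / 3 := by
        rw [div_le_iff₀ hδ']
        refine h4.trans ?_
        calc (2 ^ s) ^ 2 * S.Sk (n + 1 + 1) (2 ^ r) f ≤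
            (2 ^ s) ^ 2 * (δ' * (ε / 3) / (2 ^ s) ^ 2) := by gcongr
          _ = _ := by field_simp
      linarith
    have h8 : 2 * ((2 ^ r : ℕ) : ℝ) / H ≤ ε / 3 := by
      rw [div_le_iff₀ hHp]
      have h9 : (2 * 2 ^ r / (ε / 3)) < (H : ℝ) := by
        refine lt_of_lt_of_le hH₀ ?_
        exact_mod_cast (le_trans (le_trans (le_max_left H₀ (2 ^ r)) (le_max_left _ _)) hH)
      rw [div_lt_iff₀ (by positivity)] at h9
      push_cast; linarith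
    have h10 : S.sq (avg H (fun h x => ∏ i, S.sh (lam i * (h : ℤ) + c i) (F i) x)) ≤
        ((((2 ^ r : ℕ) : ℝ)) ^ 2)⁻¹ * ∑ a ∈ range (2 ^ r), ∑ a' ∈ range (2 ^ r),
        (ε / 3 + S.Sk (n + 1) (2 ^ (r + s))
          (S.dd (lam i0 * (a : ℤ)) (lam i0 * (a' : ℤ)) f) / δ') +
          2 * ((2 ^ r : ℕ) : ℝ) / H := by
      refine h1.trans ?_
      gcongr with a ha a' ha'
      exact h2 a (Finset.mem_range.mp ha) a' (Finset.mem_range.mp ha')
    linarith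

end Lin

/-- REC-7, given the monotonicity of the box averages -/
theorem linear_vanish_of (S : Sys X) (hanti : Lin.SkAnti S) {ι : Type} [Fintype ι] (lam : ι → ℤ)
    (hne : ∀ i, lam i ≠ 0) (hinj : Function.Injective lam) (i0 : ι)
    (f : X → ℂ) (hf : B1 f) (hnull : S.Null f) (ε : ℝ) (hε : 0 < ε) :
    ∃ H₀ : ℕ, ∀ H ≥ H₀, ∀ c : ι → ℤ, ∀ F : ι → X → ℂ, (∀ i, B1 (F i)) → F i0 = f →
      S.sq (avg H (fun h x => ∏ i, S.sh (lam i * (h : ℤ) + c i) (F i) x)) ≤ ε := by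
  obtain ⟨n, hn⟩ : ∃ n, Fintype.card ι = n + 1 :=
    ⟨Fintype.card ι - 1, by have : 0 < Fintype.card ι := Fintype.card_pos_iff.mpr ⟨i0⟩; omega⟩
  obtain ⟨δ, hδ, h⟩ := Lin.claim S hanti n hn lam hne hinj i0 ε hε
  obtain ⟨r, hr⟩ := hnull (n + 1) (by omega) δ hδ
  exact h f hf r hr

/-- REC-7 -/
theorem linear_vanish (S : Sys X) {ι : Type} [Fintype ι] (lam : ι → ℤ)
    (hne : ∀ i, lam i ≠ 0) (hinj : Function.Injective lam) (i0 : ι)
    (f : X → ℂ) (hf : B1 f) (hnull : S.Null f) (ε : ℝ) (hε : 0 < ε) :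
    ∃ H₀ : ℕ, ∀ H ≥ H₀, ∀ c : ι → ℤ, ∀ F : ι → X → ℂ, (∀ i, B1 (F i)) → F i0 = f →
      S.sq (avg H (fun h x => ∏ i, S.sh (lam i * (h : ℤ) + c i) (F i) x)) ≤ ε :=
  linear_vanish_of S (fun k f hf r s h => Sk_anti S k f hf r s h) lam hne hinj i0 f hf hnull ε hε

end Pool.Agent.Helper50.Rec
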